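import Pool.Agent.Work.MP_9d0e17_sch.Core6

set_option autoImplicit false

open Polynomial Matrix

namespace Pool.Sch

variable {p : ℕ} [Fact p.Prime]

/-- The form used for points outside the support: no condition `z ^ 2 ≤ 2 (p - 1)`. -/
theorem core0_pos (hp : p ≠ 2) (F : ZMod p → ℤ) (z : ℕ) (hz : 1 ≤ z)
    (hpar : Even (∑ a, (F a).natAbs + z)) (hN : ∑ a, (F a).natAbs + z ≤ p + 1)
    (hz2 : 2 * z ≤ p + 2) (b0 : ZMod p) (hb0 : (z : ℤ) - 1 ≤ tau p F b0) :
    ∑ b ∈ Finset.univ.filter (fun b => F b = 0), max 0 ((z : ℤ) ^ 2 - tau p F b ^ 2)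
      ≤ ((p : ℤ) - 1) * (z ^ 2 - z) := by
  classical
  obtain ⟨r, rfl⟩ : ∃ r, z = r + 1 := ⟨z - 1, by omega⟩
  have hp2 : 2 ≤ p := (Fact.out : p.Prime).two_le
  have hodd : p / 2 * 2 + 1 = p := by
    have h1 := (Fact.out : p.Prime).eq_two_or_odd
    omega
  have h2r : 2 * r ≤ p := by omega
  have hτp : tau p F b0 + r ≤ p := by
    have h1 := (le_abs_self _).trans (abs_tau_le F b0)
    have h2 : ((∑ a, (F a).natAbs + (r + 1) : ℕ) : ℤ) ≤ ((p + 1 : ℕ) : ℤ) := by exact_mod_cast hN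
    rw [Nat.cast_add, Nat.cast_sum, Nat.cast_add, Nat.cast_add, Nat.cast_one] at h2
    linarith
  have hG : (Mx r (HH p F)).det ≠ 0 := det_ne hp F b0 (by push_cast at hb0; linarith) hτp
  set w : ZMod p → ℕ := fun b => if F b = 0 then (if |tau p F b| < r then
    vv r (r - 1 + tau p F b).toNat else 0) else 0 with hw
  have hdvd : ∀ b, (X - C b : (ZMod p)[X]) ^ w b ∣ (Mx r (HH p F)).det := by
    intro b
    by_cases hF : F b = 0
    · by_cases hb : |tau p F b| < r
      · have hb' := abs_lt.mp hb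
        simp only [hw, if_pos hb, if_pos hF]
        have hq : (((r - 1 + tau p F b).toNat : ℕ) : ℤ) = r - 1 + tau p F b :=
          Int.toNat_of_nonneg (by omega)
        have h := ord_at_full hp F b (by omega) h2r hq (by omega)
        rwa [if_pos hF] at h
      · simp only [hw, if_neg hb, if_pos hF, pow_zero]
        exact one_dvd _
    · simp only [hw, if_neg hF, pow_zero]
      exact one_dvd _
  have hcount := sum_order_le hG w hdvd
  have hdeg := natDegree_det_le (WD.HH F) r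
  have hp12 : (p : ℤ) = 2 * ((p / 2 : ℕ) : ℤ) + 1 := by omega
  -- compare
  have hcomp : ∀ b ∈ Finset.univ.filter (fun b => F b = 0),
      max 0 ((((r + 1 : ℕ) : ℤ)) ^ 2 - tau p F b ^ 2) ≤ 4 * (w b : ℤ) := by
    intro b hbF
    have hF : F b = 0 := by simpa using hbF
    refine max_le (by positivity) ?_
    by_cases hpos : (((r + 1 : ℕ) : ℤ)) ^ 2 - tau p F b ^ 2 ≤ 0
    · exact hpos.trans (by positivity)
    · have hlt : |tau p F b| < ((r + 1 : ℕ) : ℤ) := by
        rw [← sq_abs (tau p F b)] at hpos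
        exact lt_of_pow_lt_pow_left₀ 2 (by positivity) (by linarith)
      obtain ⟨k, hk⟩ := tau_parity F b
      obtain ⟨l, hl⟩ := hpar
      have hl' : ∑ a, ((F a).natAbs : ℤ) + (r + 1) = l + l := by exact_mod_cast hl
      rw [hF] at hk
      set N : ℤ := ∑ a, ((F a).natAbs : ℤ) with hNdef
      set t := tau p F b with htdef
      simp only [Int.natAbs_zero, Nat.cast_zero, add_zero] at hk
      have habs := abs_lt.mp hlt
      push_cast at habs
      have hlt2 : |t| < r := by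
        rw [abs_lt]
        constructor <;> omega
      have habs2 := abs_lt.mp hlt2
      have hq : (((r - 1 + t).toNat : ℕ) : ℤ) = r - 1 + t := Int.toNat_of_nonneg (by omega)
      have hwb : w b = vv r (r - 1 + t).toNat := by
        simp only [hw, ← htdef, if_pos hlt2, if_pos hF]
      rw [hwb]
      rcases Nat.even_or_odd' (r - 1 + t).toNat with ⟨h, hh | hh⟩
      · rw [hh, vv_even r h (by omega) t (by omega)]
        push_cast; rfl
      · exfalso; omega
  calc ∑ b ∈ Finset.univ.filter (fun b => F b = 0), max 0 ((((r + 1 : ℕ) : ℤ)) ^ 2 - tau p F b ^ 2)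
      ≤ ∑ b ∈ Finset.univ.filter (fun b => F b = 0), 4 * (w b : ℤ) :=
        Finset.sum_le_sum hcomp
    _ ≤ ∑ b, 4 * (w b : ℤ) :=
        Finset.sum_le_sum_of_subset_of_nonneg (Finset.filter_subset _ _) fun b _ _ => by positivity
    _ = 4 * ((∑ b, w b : ℕ) : ℤ) := by rw [← Finset.mul_sum, Nat.cast_sum]
    _ ≤ 4 * (((Mx r (HH p F)).det.natDegree : ℕ) : ℤ) := by
        have : ((∑ b, w b : ℕ) : ℤ) ≤ (((Mx r (HH p F)).det.natDegree : ℕ) : ℤ) := by exact_mod_cast hcount
        linarith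
    _ ≤ 2 * ((p / 2 * (r * (r + 1)) : ℕ) : ℤ) := by
        have : ((2 * (Mx r (HH p F)).det.natDegree : ℕ) : ℤ) ≤ ((p / 2 * (r * (r + 1)) : ℕ) : ℤ) := by
          exact_mod_cast hdeg
        rw [Nat.cast_mul] at this
        push_cast at this ⊢
        linarith
    _ = ((p : ℤ) - 1) * (((r + 1 : ℕ) : ℤ) ^ 2 - ((r + 1 : ℕ) : ℤ)) := by
        rw [hp12, Nat.cast_mul, Nat.cast_mul, Nat.cast_add]
        generalize ((p / 2 : ℕ) : ℤ) = n
        push_cast
        ring

/-- **CORE0.** -/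
theorem core0 (hp : p ≠ 2) (F : ZMod p → ℤ) (z : ℕ) (hz : 1 ≤ z)
    (hpar : Even (∑ a, (F a).natAbs + z)) (hN : ∑ a, (F a).natAbs + z ≤ p + 1)
    (hz2 : 2 * z ≤ p + 2) (b0 : ZMod p) (hb0 : (z : ℤ) - 1 ≤ |tau p F b0|) :
    ∑ b ∈ Finset.univ.filter (fun b => F b = 0), max 0 ((z : ℤ) ^ 2 - tau p F b ^ 2)
      ≤ ((p : ℤ) - 1) * (z ^ 2 - z) := by
  rcases le_total 0 (tau p F b0) with h | h
  · rw [abs_of_nonneg h] at hb0
    exact core0_pos hp F z hz hpar hN hz2 b0 hb0
  · rw [abs_of_nonpos h, ← tau_neg] at hb0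
    have h1 := core0_pos hp (fun a => -F a) z hz (by simpa using hpar) (by simpa using hN) hz2 b0 hb0
    simpa [tau_neg] using h1

end Pool.Sch
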