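import Pool.Agent.Work.MP_9d0e17_sch.Core5

set_option autoImplicit false

open Polynomial Matrix

namespace Pool.Sch

variable {p : ℕ} [Fact p.Prime]

lemma abs_tau_le (F : ZMod p → ℤ) (b : ZMod p) : |tau p F b| ≤ ∑ a, ((F a).natAbs : ℤ) := by
  rw [tau]
  refine (Finset.abs_sum_le_sum_abs _ _).trans (Finset.sum_le_sum fun a _ => ?_)
  rw [abs_mul, Int.natCast_natAbs]
  have : |quadraticChar (ZMod p) (b - a)| ≤ 1 := by
    by_cases h : b - a = 0
    · simp [h]
    · rcases quadraticChar_dichotomy h with h | h <;> simp [h]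
  calc |F a| * |quadraticChar (ZMod p) (b - a)| ≤ |F a| * 1 :=
        mul_le_mul_of_nonneg_left this (abs_nonneg _)
    _ = |F a| := mul_one _

lemma tau_neg (F : ZMod p → ℤ) (b : ZMod p) : tau p (fun a => -F a) b = -tau p F b := by
  simp [tau, Finset.sum_neg_distrib]

lemma tau_parity (F : ZMod p → ℤ) (b : ZMod p) :
    Even (tau p F b + (F b).natAbs + ∑ a, ((F a).natAbs : ℤ)) := by
  classical
  have h1 : tau p F b = ∑ a ∈ Finset.univ.erase b, F a * quadraticChar (ZMod p) (b - a) := by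
    rw [tau, ← Finset.add_sum_erase _ _ (Finset.mem_univ b)]
    simp
  have h2 : ∑ a, ((F a).natAbs : ℤ) = (F b).natAbs + ∑ a ∈ Finset.univ.erase b, ((F a).natAbs : ℤ) := by
    rw [← Finset.add_sum_erase _ _ (Finset.mem_univ b)]
  rw [h1, h2]
  have h3 : Even (∑ a ∈ Finset.univ.erase b, (F a * quadraticChar (ZMod p) (b - a) + ((F a).natAbs : ℤ))) := by
    apply Finset.even_sum
    intro a ha
    rcases rho_cases F a b (Finset.ne_of_mem_erase ha) with h | h
    · rw [h.1]; exact ⟨_, rfl⟩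
    · rw [h.1]; simp
  rw [Finset.sum_add_distrib] at h3
  obtain ⟨k, hk⟩ := h3
  exact ⟨k + (F b).natAbs, by omega⟩

/-- the multiplicity -/
def vv (r q : ℕ) : ℕ := (r - (q + 1) / 2) * (q + 1 - (q + 1) / 2)

lemma vv_even (r h : ℕ) (h1 : 2 * h + 1 ≤ 2 * r) (t : ℤ) (ht : t = 2 * h - r + 1) :
    4 * (vv r (2 * h) : ℤ) = (r + 1) ^ 2 - t ^ 2 := by
  have e1 : (2 * h + 1) / 2 = h := by omega
  rw [vv, e1, Nat.cast_mul, Nat.cast_sub (by omega), Nat.cast_sub (by omega), ht]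
  push_cast; ring

lemma vv_odd (r h : ℕ) (h1 : 2 * h + 2 ≤ 2 * r) (t : ℤ) (ht : t = 2 * h + 1 - r + 1) :
    4 * (vv r (2 * h + 1) : ℤ) = r ^ 2 - t ^ 2 := by
  have e1 : (2 * h + 1 + 1) / 2 = h + 1 := by omega
  rw [vv, e1, Nat.cast_mul, Nat.cast_sub (by omega), Nat.cast_sub (by omega), ht]
  push_cast; ring

lemma vv_le (r q : ℕ) (hq : q + 1 ≤ 2 * r) : 4 * (vv r q : ℤ) ≤ (r + 1) ^ 2 := by
  rcases Nat.even_or_odd' q with ⟨h, rfl | rfl⟩
  · rw [vv_even r h hq _ rfl]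
    nlinarith [sq_nonneg (2 * (h : ℤ) - r + 1)]
  · rw [vv_odd r h hq _ rfl]
    nlinarith [sq_nonneg (2 * (h : ℤ) + 1 - r + 1)]

omit [Fact p.Prime] in
lemma z_to_r (r : ℕ) (hp2 : 2 ≤ p) (hz2 : (r + 1) * (r + 1) ≤ 2 * (p - 1)) :
    ((r : ℤ) + 1) ^ 2 ≤ 2 * (p - 1) := by
  have : (((r + 1) * (r + 1) : ℕ) : ℤ) ≤ ((2 * (p - 1) : ℕ) : ℤ) := by exact_mod_cast hz2
  rw [Nat.cast_mul, Nat.cast_mul, Nat.cast_sub (by omega)] at this
  push_cast at this
  linarith

/-- the shifted bound -/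
def zb (F : ZMod p → ℤ) (z : ℕ) (b : ZMod p) : ℤ := z - ((F b).natAbs % 2 : ℕ)

theorem charge_sum_pos (hp : p ≠ 2) (F : ZMod p → ℤ) (z : ℕ) (hz : 1 ≤ z)
    (hpar : Even (∑ a, (F a).natAbs + z)) (hN : ∑ a, (F a).natAbs + z ≤ p + 1)
    (hz2 : z * z ≤ 2 * (p - 1)) (b0 : ZMod p) (hb0 : (z : ℤ) - 1 ≤ tau p F b0) :
    ∑ b, max 0 (zb F z b ^ 2 - tau p F b ^ 2) ≤ ((p : ℤ) - 1) * (z ^ 2 - z) := by
  classical
  obtain ⟨r, rfl⟩ : ∃ r, z = r + 1 := ⟨z - 1, by omega⟩
  have hp2 : 2 ≤ p := (Fact.out : p.Prime).two_le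
  have hodd : p / 2 * 2 + 1 = p := by
    have h1 := (Fact.out : p.Prime).eq_two_or_odd
    omega
  have hzz := z_to_r r hp2 hz2
  have h2r : 2 * r ≤ p := by
    have : 2 * (r : ℤ) ≤ p := by nlinarith
    exact_mod_cast this
  have hτp : tau p F b0 + r ≤ p := by
    have h1 := (le_abs_self _).trans (abs_tau_le F b0)
    have h2 : ((∑ a, (F a).natAbs + (r + 1) : ℕ) : ℤ) ≤ ((p + 1 : ℕ) : ℤ) := by exact_mod_cast hN
    rw [Nat.cast_add, Nat.cast_sum, Nat.cast_add, Nat.cast_add, Nat.cast_one] at h2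
    linarith
  have hG : (Mx r (HH p F)).det ≠ 0 := det_ne hp F b0 (by push_cast at hb0; linarith) hτp
  set w : ZMod p → ℕ := fun b => if |tau p F b| < r then
    (if F b = 0 then vv r (r - 1 + tau p F b).toNat else
      min (p / 2) (vv r (r - 1 + tau p F b).toNat)) else 0 with hw
  have hdvd : ∀ b, (X - C b : (ZMod p)[X]) ^ w b ∣ (Mx r (HH p F)).det := by
    intro b
    by_cases hb : |tau p F b| < r
    · have hb' := abs_lt.mp hb
      simp only [hw, if_pos hb]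
      have hq : (((r - 1 + tau p F b).toNat : ℕ) : ℤ) = r - 1 + tau p F b :=
        Int.toNat_of_nonneg (by omega)
      exact ord_at_full hp F b (by omega) h2r hq (by omega)
    · simp only [hw, if_neg hb, pow_zero]
      exact one_dvd _
  have hcount := sum_order_le hG w hdvd
  have hdeg := natDegree_det_le (WD.HH F) r
  have hp12 : (p : ℤ) = 2 * ((p / 2 : ℕ) : ℤ) + 1 := by omega
  -- compare
  have hcomp : ∀ b, max 0 (zb F (r + 1) b ^ 2 - tau p F b ^ 2) ≤ 4 * (w b : ℤ) := by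
    intro b
    refine max_le (by positivity) ?_
    by_cases hpos : zb F (r + 1) b ^ 2 - tau p F b ^ 2 ≤ 0
    · exact hpos.trans (by positivity)
    · have hlt : |tau p F b| < zb F (r + 1) b := by
        have h1 : 0 ≤ zb F (r + 1) b := by
          unfold zb; have := Nat.mod_lt (F b).natAbs (show 0 < 2 by norm_num); omega
        rw [← sq_abs (tau p F b)] at hpos
        exact lt_of_pow_lt_pow_left₀ 2 h1 (by linarith)
      obtain ⟨k, hk⟩ := tau_parity F b
      obtain ⟨l, hl⟩ := hpar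
      have hl' : ∑ a, ((F a).natAbs : ℤ) + (r + 1) = l + l := by exact_mod_cast hl
      set N : ℤ := ∑ a, ((F a).natAbs : ℤ) with hNdef
      set m := (F b).natAbs with hmdef
      set t := tau p F b with htdef
      have hz' : zb F (r + 1) b = r + 1 - (m % 2 : ℕ) := by
        unfold zb; rw [← hmdef, Nat.cast_add, Nat.cast_one]
      rw [hz'] at hlt hpos ⊢
      have habs := abs_lt.mp hlt
      have hlt2 : |t| < r := by
        rw [abs_lt]
        constructor <;> omega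
      have habs2 := abs_lt.mp hlt2
      have hq : (((r - 1 + t).toNat : ℕ) : ℤ) = r - 1 + t := Int.toNat_of_nonneg (by omega)
      have hvle : vv r (r - 1 + t).toNat ≤ p / 2 := by
        have h1 := vv_le r (r - 1 + t).toNat (by omega)
        omega
      have hwb : w b = vv r (r - 1 + t).toNat := by
        simp only [hw, ← htdef, if_pos hlt2]
        split_ifs
        · rfl
        · exact min_eq_right hvle
      rw [hwb]
      rcases Nat.even_or_odd' (r - 1 + t).toNat with ⟨h, hh | hh⟩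
      · have e2 : (m % 2 : ℕ) = 0 := by omega
        rw [hh, vv_even r h (by omega) t (by omega), e2]
        simp
      · have e2 : (m % 2 : ℕ) = 1 := by omega
        rw [hh, vv_odd r h (by omega) t (by omega), e2]
        simp
  calc ∑ b, max 0 (zb F (r + 1) b ^ 2 - tau p F b ^ 2) ≤ ∑ b, 4 * (w b : ℤ) :=
        Finset.sum_le_sum fun b _ => hcomp b
    _ = 4 * ((∑ b, w b : ℕ) : ℤ) := by rw [← Finset.mul_sum, Nat.cast_sum]
    _ ≤ 4 * (((Mx r (HH p F)).det.natDegree : ℕ) : ℤ) := by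
        have : ((∑ b, w b : ℕ) : ℤ) ≤ (((Mx r (HH p F)).det.natDegree : ℕ) : ℤ) := by exact_mod_cast hcount
        linarith
    _ ≤ 2 * ((p / 2 * (r * (r + 1)) : ℕ) : ℤ) := by
        have : ((2 * (Mx r (HH p F)).det.natDegree : ℕ) : ℤ) ≤ ((p / 2 * (r * (r + 1)) : ℕ) : ℤ) := by
          exact_mod_cast hdeg
        rw [Nat.cast_mul] at this
        push_cast at this ⊢
        linarith
    _ = ((p : ℤ) - 1) * (((r + 1 : ℕ) : ℤ) ^ 2 - ((r + 1 : ℕ) : ℤ)) := by
        rw [hp12, Nat.cast_mul, Nat.cast_mul, Nat.cast_add]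
        generalize ((p / 2 : ℕ) : ℤ) = n
        push_cast
        ring

theorem charge_sum (hp : p ≠ 2) (F : ZMod p → ℤ) (z : ℕ) (hz : 1 ≤ z)
    (hpar : Even (∑ a, (F a).natAbs + z)) (hN : ∑ a, (F a).natAbs + z ≤ p + 1)
    (hz2 : z * z ≤ 2 * (p - 1)) (b0 : ZMod p) (hb0 : (z : ℤ) - 1 ≤ |tau p F b0|) :
    ∑ b, max 0 (zb F z b ^ 2 - tau p F b ^ 2) ≤ ((p : ℤ) - 1) * (z ^ 2 - z) := by
  rcases le_total 0 (tau p F b0) with h | h
  · rw [abs_of_nonneg h] at hb0
    exact charge_sum_pos hp F z hz hpar hN hz2 b0 hb0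
  · rw [abs_of_nonpos h, ← tau_neg] at hb0
    have h1 := charge_sum_pos hp (fun a => -F a) z hz (by simpa using hpar) (by simpa using hN) hz2 b0 hb0
    have h2 : ∀ b, max 0 (zb (fun a => -F a) z b ^ 2 - tau p (fun a => -F a) b ^ 2)
        = max 0 (zb F z b ^ 2 - tau p F b ^ 2) := by
      intro b
      rw [tau_neg]
      simp [zb]
    rwa [Finset.sum_congr rfl fun b _ => h2 b] at h1

/-- **The integer inequality.** -/
theorem int_ineq (hp : p ≠ 2) (F : ZMod p → ℤ) (z : ℕ) (hz1 : 1 ≤ z)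
    (hm : ∀ a, (F a).natAbs ≤ z) (hz : z + 2 ≤ ∑ a, (F a).natAbs)
    (hpar : Even (∑ a, (F a).natAbs + z)) (hN : ∑ a, (F a).natAbs + z ≤ p + 1)
    (hz2 : z * z ≤ 2 * (p - 1)) (B : Finset (ZMod p)) :
    ∑ b ∈ B, (tau p F b ^ 2 - ((z : ℤ) - (F b).natAbs) ^ 2) ≤
      ((p : ℤ) - 1) * (∑ a, F a ^ 2 - z) + 2 * z * (∑ a, ((F a).natAbs : ℤ)) - z ^ 2 := by
  classical
  have hp2 : 2 ≤ p := (Fact.out : p.Prime).two_le
  have hX : ∑ b ∈ B, (tau p F b ^ 2 - ((z : ℤ) - (F b).natAbs) ^ 2)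
      = ∑ b, if b ∈ B then (tau p F b ^ 2 - ((z : ℤ) - (F b).natAbs) ^ 2) else 0 := by
    rw [Finset.sum_ite_mem, Finset.univ_inter]
  have hsq : ∀ a, ((F a).natAbs : ℤ) ^ 2 = F a ^ 2 := fun a => Int.natAbs_sq (F a)
  have hcard : ∑ _b : ZMod p, (1 : ℤ) = p := by simp [ZMod.card]
  rw [hX]
  by_cases hb : ∃ b0, (z : ℤ) - 1 ≤ |tau p F b0|
  · obtain ⟨b0, hb0⟩ := hb
    have hc := charge_sum hp F z hz1 hpar hN hz2 b0 hb0
    have hpt : ∀ b, (if b ∈ B then (tau p F b ^ 2 - ((z : ℤ) - (F b).natAbs) ^ 2) else 0)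
        ≤ tau p F b ^ 2 - z ^ 2 + max 0 (zb F z b ^ 2 - tau p F b ^ 2) + 2 * z * ((F b).natAbs : ℤ)
          - F b ^ 2 := by
      intro b
      rw [← hsq b]
      split_ifs with hbB
      · nlinarith [le_max_left 0 (zb F z b ^ 2 - tau p F b ^ 2)]
      · have h1 := le_max_right 0 (zb F z b ^ 2 - tau p F b ^ 2)
        have h2 : ((F b).natAbs : ℤ) ≤ z := by exact_mod_cast hm b
        have h3 : (0 : ℤ) ≤ (F b).natAbs := by positivity
        rcases Nat.even_or_odd (F b).natAbs with h4 | h4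
        · have : zb F z b = z := by unfold zb; rw [Nat.even_iff.mp h4]; simp
          rw [this] at h1 ⊢
          nlinarith
        · have : zb F z b = z - 1 := by unfold zb; rw [Nat.odd_iff.mp h4]; simp
          rw [this] at h1 ⊢
          have h5 : (1 : ℤ) ≤ (F b).natAbs := by
            have := h4.pos; exact_mod_cast this
          nlinarith [mul_nonneg (sub_nonneg.mpr h5) (show (0 : ℤ) ≤ 2 * z - (F b).natAbs - 1 by linarith)]
    refine (Finset.sum_le_sum fun b _ => hpt b).trans ?_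
    rw [Finset.sum_sub_distrib, Finset.sum_add_distrib, Finset.sum_add_distrib, Finset.sum_sub_distrib,
      parseval hp, ← Finset.mul_sum]
    have e1 : ∑ _b : ZMod p, (z : ℤ) ^ 2 = p * z ^ 2 := by
      rw [← hcard, Finset.sum_mul]; simp
    rw [e1]
    nlinarith [sq_nonneg (∑ a, F a)]
  · push Not at hb
    have hpt : ∀ b, (if b ∈ B then (tau p F b ^ 2 - ((z : ℤ) - (F b).natAbs) ^ 2) else 0)
        ≤ 2 * z * ((F b).natAbs : ℤ) - F b ^ 2 := by
      intro b
      rw [← hsq b]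
      have h2 : ((F b).natAbs : ℤ) ≤ z := by exact_mod_cast hm b
      have h3 : (0 : ℤ) ≤ (F b).natAbs := by positivity
      split_ifs with hbB
      · have h1 := hb b
        have h4 : tau p F b ^ 2 ≤ z ^ 2 := by
          rw [← sq_abs]
          have := abs_nonneg (tau p F b)
          nlinarith
        nlinarith
      · nlinarith
    refine (Finset.sum_le_sum fun b _ => hpt b).trans ?_
    rw [Finset.sum_sub_distrib, ← Finset.mul_sum]
    have h5 : (z : ℤ) + 2 ≤ ∑ a, F a ^ 2 := by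
      have h6 : (z : ℤ) + 2 ≤ ∑ a, ((F a).natAbs : ℤ) := by exact_mod_cast hz
      refine h6.trans (Finset.sum_le_sum fun a _ => ?_)
      rw [← hsq a]
      have : (0 : ℤ) ≤ (F a).natAbs := by positivity
      by_cases h0 : (F a).natAbs = 0
      · rw [h0]; simp
      · have : (1 : ℤ) ≤ (F a).natAbs := by
          have := Nat.pos_of_ne_zero h0; exact_mod_cast this
        nlinarith
    have h7 : (z : ℤ) * z ≤ 2 * (p - 1) := by
      have : ((z * z : ℕ) : ℤ) ≤ ((2 * (p - 1) : ℕ) : ℤ) := by exact_mod_cast hz2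
      push_cast [Nat.cast_sub (show 1 ≤ p by omega)] at this
      linarith
    have h8 : (2 : ℤ) ≤ p := by exact_mod_cast hp2
    have h9 : (0 : ℤ) ≤ z := by positivity
    nlinarith [mul_le_mul_of_nonneg_left (show (2 : ℤ) ≤ ∑ a, F a ^ 2 - z by linarith)
      (show (0 : ℤ) ≤ p by linarith)]

end Pool.Sch
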