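import Mathlib

set_option autoImplicit false

open Polynomial Matrix

namespace Pool.Sch

variable {R : Type*} [CommRing R]

/-- odd coefficients of `X^j H` -/
noncomputable def Mx (r : ℕ) (H : R[X]) : Matrix (Fin r) (Fin r) R :=
  Matrix.of fun k j => (X ^ (j : ℕ) * H).coeff (2 * (k : ℕ) + 1)

lemma det_Mx_even1 (r : ℕ) (w : R) (H : R[X]) :
    (Mx r ((1 - C w * X ^ 2) * H)).det = (Mx r H).det := by
  cases r with
  | zero => simp [Matrix.det_fin_zero]
  | succ n =>
    symm
    apply Matrix.det_eq_of_forall_row_eq_smul_add_pred (fun _ => w)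
    · intro j
      simp only [Mx, Matrix.of_apply, Fin.val_zero, mul_zero, zero_add]
      have : X ^ (j : ℕ) * ((1 - C w * X ^ 2) * H)
          = X ^ (j : ℕ) * H - C w * (X ^ 2 * (X ^ (j : ℕ) * H)) := by ring
      rw [this, coeff_sub, coeff_C_mul, coeff_X_pow_mul' _ 2, if_neg (by omega), mul_zero, sub_zero]
    · intro i j
      simp only [Mx, Matrix.of_apply, Fin.val_succ, Fin.val_castSucc]
      have : X ^ (j : ℕ) * ((1 - C w * X ^ 2) * H)
          = X ^ (j : ℕ) * H - C w * (X ^ 2 * (X ^ (j : ℕ) * H)) := by ring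
      rw [this, coeff_sub, coeff_C_mul, coeff_X_pow_mul' _ 2, if_pos (by omega)]
      have h2 : 2 * ((i : ℕ) + 1) + 1 - 2 = 2 * (i : ℕ) + 1 := by omega
      rw [h2]; ring

lemma det_Mx_even_pow (r : ℕ) (w : R) (m : ℕ) (H : R[X]) :
    (Mx r ((1 - C w * X ^ 2) ^ m * H)).det = (Mx r H).det := by
  induction m generalizing H with
  | zero => simp
  | succ m ih =>
    rw [pow_succ, mul_assoc, ih, det_Mx_even1]

lemma det_Mx_even {ι : Type*} [DecidableEq ι] (r : ℕ) (s : Finset ι) (w : ι → R) (m : ι → ℕ) (H : R[X]) :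
    (Mx r ((∏ a ∈ s, (1 - C (w a) * X ^ 2) ^ m a) * H)).det = (Mx r H).det := by
  induction s using Finset.induction_on generalizing H with
  | empty => simp
  | insert a s ha ih =>
    rw [Finset.prod_insert ha, mul_assoc, det_Mx_even_pow, ih]

lemma Mx_congr (r : ℕ) {H H' : R[X]} (h : ∀ i < 2 * r, H.coeff i = H'.coeff i) :
    Mx r H = Mx r H' := by
  ext k j
  simp only [Mx, Matrix.of_apply, coeff_X_pow_mul']
  split_ifs with hh
  · exact h _ (by have := k.2; omega)
  · rfl

lemma det_cols (r : ℕ) (H : R[X]) (P : Fin r → R[X]) (hP : ∀ j, (P j).natDegree < r)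
    (hlow : ∀ j k : Fin r, k < j → (P j).coeff (k : ℕ) = 0)
    (hdiag : ∀ j : Fin r, (P j).coeff (j : ℕ) = 1) :
    (Matrix.of fun k j : Fin r => (P j * H).coeff (2 * (k : ℕ) + 1)).det = (Mx r H).det := by
  have h1 : (Matrix.of fun k j : Fin r => (P j * H).coeff (2 * (k : ℕ) + 1))
      = Mx r H * (Matrix.of fun i j : Fin r => (P j).coeff (i : ℕ)) := by
    ext k j
    simp only [Matrix.of_apply, Matrix.mul_apply, Mx]
    conv_lhs => rw [as_sum_range' (P j) r (hP j)]
    rw [Finset.sum_mul, finsetSum_coeff, Finset.sum_range]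
    refine Finset.sum_congr rfl fun i _ => ?_
    rw [← C_mul_X_pow_eq_monomial, mul_assoc, coeff_C_mul, mul_comm]
  rw [h1, Matrix.det_mul]
  have h2 : (Matrix.of fun i j : Fin r => (P j).coeff (i : ℕ)).det = 1 := by
    rw [Matrix.det_of_isLowerTriangular _ (by
      intro i j hij
      exact hlow _ _ hij)]
    simp [hdiag]
  rw [h2, mul_one]

/-- the class of polynomials `sum y^i g_i X^i (1+X)^(d-i)` -/
def Cl (y : R) (d : ℕ) (f : R[X]) : Prop :=
  ∃ g : ℕ → R, f = ∑ i ∈ Finset.range (d + 1), C (y ^ i * g i) * (X ^ i * (1 + X) ^ (d - i))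

lemma Cl.one (y : R) : Cl y 0 (1 : R[X]) := ⟨fun _ => 1, by simp⟩

lemma Cl.mul {y : R} {d : ℕ} {f : R[X]} (h : Cl y d f) (v : R) :
    Cl y (d + 1) (f * ((1 + X) + C (y * v) * X)) := by
  obtain ⟨g, rfl⟩ := h
  refine ⟨fun i => (if i ≤ d then g i else 0) + (if i = 0 then 0 else v * g (i - 1)), ?_⟩
  have e1 : ∑ i ∈ Finset.range (d + 1 + 1), C (y ^ i * ((if i ≤ d then g i else 0) +
      (if i = 0 then 0 else v * g (i - 1)))) * (X ^ i * (1 + X) ^ (d + 1 - i))
      = (∑ i ∈ Finset.range (d + 1 + 1), C (y ^ i * (if i ≤ d then g i else 0)) *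
          (X ^ i * (1 + X) ^ (d + 1 - i)))
        + ∑ i ∈ Finset.range (d + 1 + 1), C (y ^ i * (if i = 0 then 0 else v * g (i - 1))) *
          (X ^ i * (1 + X : R[X]) ^ (d + 1 - i)) := by
    rw [← Finset.sum_add_distrib]
    refine Finset.sum_congr rfl fun i _ => ?_
    rw [mul_add, C_add, add_mul]
  have e2 : (∑ i ∈ Finset.range (d + 1 + 1), C (y ^ i * (if i ≤ d then g i else 0)) *
      (X ^ i * (1 + X : R[X]) ^ (d + 1 - i)))
      = (∑ i ∈ Finset.range (d + 1), C (y ^ i * g i) * (X ^ i * (1 + X) ^ (d - i))) * (1 + X) := by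
    rw [Finset.sum_range_succ, if_neg (by omega : ¬ d + 1 ≤ d), mul_zero, C_0, zero_mul, add_zero,
      Finset.sum_mul]
    refine Finset.sum_congr rfl fun i hi => ?_
    have hi' : i ≤ d := by simpa [Nat.lt_succ_iff] using hi
    rw [if_pos hi', show d + 1 - i = (d - i) + 1 by omega]
    ring
  have e3 : (∑ i ∈ Finset.range (d + 1 + 1), C (y ^ i * (if i = 0 then 0 else v * g (i - 1))) *
      (X ^ i * (1 + X : R[X]) ^ (d + 1 - i)))
      = (∑ i ∈ Finset.range (d + 1), C (y ^ i * g i) * (X ^ i * (1 + X) ^ (d - i)))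
          * (C (y * v) * X) := by
    rw [Finset.sum_range_succ', if_pos rfl, mul_zero, C_0, zero_mul, add_zero, Finset.sum_mul]
    refine Finset.sum_congr rfl fun i hi => ?_
    rw [if_neg (by omega), show i + 1 - 1 = i by omega, show d + 1 - (i + 1) = d - i by omega]
    simp only [C_mul, C_pow]
    ring
  rw [e1, e2, e3, ← mul_add]

lemma Cl.pow {y : R} {d : ℕ} {f : R[X]} (h : Cl y d f) (v : R) (m : ℕ) :
    Cl y (d + m) (f * ((1 + X) + C (y * v) * X) ^ m) := by
  induction m with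
  | zero => simpa using h
  | succ m ih =>
    rw [pow_succ, ← mul_assoc, ← add_assoc]
    exact ih.mul v

lemma Cl.prod {ι : Type*} [DecidableEq ι] (y : R) (s : Finset ι) (v : ι → R) (m : ι → ℕ) :
    Cl y (∑ a ∈ s, m a) (∏ a ∈ s, ((1 + X) + C (y * v a) * X) ^ m a) := by
  induction s using Finset.induction_on with
  | empty => simpa using Cl.one y
  | insert a s ha ih =>
    rw [Finset.prod_insert ha, Finset.sum_insert ha, mul_comm, add_comm]
    exact ih.pow (v a) (m a)

/-- multilinear expansion of the determinant of a product of non-square matrices -/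
lemma det_expand (r n : ℕ) (B : Fin r → ℕ → R) (Y : ℕ → Fin r → R) :
    (Matrix.of fun k j : Fin r => ∑ i ∈ Finset.range n, B k i * Y i j).det
      = ∑ ι ∈ Fintype.piFinset (fun _ : Fin r => Finset.range n),
          (∏ k, B k (ι k)) * (Matrix.of fun k j : Fin r => Y (ι k) j).det := by
  have h := (Matrix.detRowAlternating (R := R) (n := Fin r)).toMultilinearMap.map_sum_finset
    (fun (k : Fin r) (i : ℕ) => (B k i • Y i : Fin r → R)) (fun _ => Finset.range n)
  have h1 : (Matrix.of fun k j : Fin r => ∑ i ∈ Finset.range n, B k i * Y i j)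
      = Matrix.of (fun k => ∑ i ∈ Finset.range n, (B k i • Y i : Fin r → R)) := by
    ext k j
    simp [Finset.sum_apply]
  rw [h1]
  have h2 : ∀ M : Fin r → Fin r → R, (Matrix.of M).det
      = (Matrix.detRowAlternating (R := R) (n := Fin r)).toMultilinearMap M := fun M => rfl
  rw [h2, h]
  refine Finset.sum_congr rfl fun ι _ => ?_
  rw [MultilinearMap.map_smul_univ, h2, smul_eq_mul]

lemma dvd_det_Y (r N' : ℕ) (y : R) (g : ℕ → R) (ι : Fin r → ℕ) (s : ℕ)
    (hs : s + ∑ j : Fin r, (j : ℕ) ≤ ∑ k, ι k) :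
    y ^ s ∣ (Matrix.of fun k j : Fin r =>
      if (j : ℕ) ≤ ι k ∧ ι k - j ≤ N' then y ^ (ι k - j) * g (ι k - j) else 0).det := by
  rw [Matrix.det_apply']
  refine Finset.dvd_sum fun σ _ => dvd_mul_of_dvd_right ?_ _
  simp only [Matrix.of_apply]
  by_cases hall : ∀ i : Fin r, (i : ℕ) ≤ ι (σ i) ∧ ι (σ i) - i ≤ N'
  · rw [Finset.prod_congr rfl (fun i _ => if_pos (hall i)), Finset.prod_mul_distrib,
      Finset.prod_pow_eq_pow_sum]
    refine dvd_mul_of_dvd_left (pow_dvd_pow _ ?_) _
    have e1 : ∑ i : Fin r, (ι (σ i) - (i : ℕ)) + ∑ i : Fin r, (i : ℕ) = ∑ k, ι k := by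
      rw [← Finset.sum_add_distrib, ← Equiv.sum_comp σ ι]
      exact Finset.sum_congr rfl fun i _ => Nat.sub_add_cancel (hall i).1
    omega
  · push Not at hall
    obtain ⟨i, hi⟩ := hall
    rw [Finset.prod_eq_zero (Finset.mem_univ i)]
    · exact dvd_zero _
    · rw [if_neg]
      rintro ⟨h1, h2⟩
      exact absurd h2 (not_le.mpr (hi h1))

lemma sum_ge_aux (c : ℕ) (T : Finset ℕ) (hT : ∀ x ∈ T, c ≤ x) :
    ∑ i ∈ Finset.range T.card, (c + i) ≤ ∑ x ∈ T, x := by
  induction hn : T.card generalizing T with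
  | zero => simp
  | succ n ih =>
    have hne : T.Nonempty := by
      rw [← Finset.card_pos]; omega
    have hmem := T.max'_mem hne
    have hcard : (T.erase (T.max' hne)).card = n := by
      rw [Finset.card_erase_of_mem hmem, hn]; simp
    have h1 := ih (T.erase (T.max' hne)) (fun x hx => hT x (Finset.mem_of_mem_erase hx)) hcard
    rw [Finset.sum_range_succ, ← Finset.sum_erase_add T _ hmem]
    have h2 : c + n ≤ T.max' hne := by
      have h3 : T ⊆ Finset.Icc c (T.max' hne) := fun x hx =>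
        Finset.mem_Icc.mpr ⟨hT x hx, T.le_max' x hx⟩
      have h4 := Finset.card_le_card h3
      rw [Nat.card_Icc, hn] at h4
      omega
    omega

lemma sum_ge_inj {α : Type*} [DecidableEq α] (c : ℕ) (U : Finset α) (f : α → ℕ)
    (hinj : Set.InjOn f U) (hf : ∀ x ∈ U, c ≤ f x) :
    ∑ i ∈ Finset.range U.card, (c + i) ≤ ∑ x ∈ U, f x := by
  have h := sum_ge_aux c (U.image f) (by
    intro x hx
    obtain ⟨a, ha, rfl⟩ := Finset.mem_image.mp hx
    exact hf a ha)
  rw [Finset.card_image_of_injOn hinj, Finset.sum_image hinj] at h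
  exact h

lemma sum_bound (r q h : ℕ) (hh : h ≤ r) (hq : h ≤ q + 1) (ι : Fin r → ℕ)
    (hinj : Function.Injective ι) (hι : ∀ k : Fin r, h ≤ k → q + 1 ≤ ι k) :
    (r - h) * (q + 1 - h) + ∑ j : Fin r, (j : ℕ) ≤ ∑ k, ι k := by
  classical
  set U : Finset (Fin r) := Finset.univ.filter fun k => h ≤ (k : ℕ) with hU
  have hcU' : (Finset.univ.filter fun k : Fin r => (k : ℕ) < h).card = h := by
    have : (Finset.univ.filter fun k : Fin r => (k : ℕ) < h)
        = Finset.univ.filter (fun k : Fin r => (k : ℕ) < h) := rfl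
    rw [Fin.card_filter_val_lt]
    omega
  have hsplit : ∀ f : Fin r → ℕ, ∑ k, f k
      = ∑ k ∈ U, f k + ∑ k ∈ Finset.univ.filter (fun k : Fin r => (k : ℕ) < h), f k := by
    intro f
    rw [← Finset.sum_filter_add_sum_filter_not Finset.univ (fun k : Fin r => h ≤ (k : ℕ)) f]
    simp only [not_le, hU]
  have hcU : U.card = r - h := by
    have h1 := hsplit (fun _ => 1)
    simp only [Finset.sum_const, smul_eq_mul, mul_one, Finset.card_univ, Fintype.card_fin, hcU'] at h1
    omega
  have h1 := sum_ge_inj (q + 1) U ι hinj.injOn (fun x hx => hι x (by simpa [hU] using hx))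
  have h2 := sum_ge_inj 0 (Finset.univ.filter (fun k : Fin r => (k : ℕ) < h)) ι hinj.injOn
    (fun x _ => Nat.zero_le _)
  rw [hcU] at h1
  rw [hcU'] at h2
  have h3 : ∑ j : Fin r, (j : ℕ) = ∑ i ∈ Finset.range h, (0 + i) + ∑ i ∈ Finset.range (r - h), (h + i) := by
    rw [← Finset.sum_range (fun i => i)]
    conv_lhs => rw [show r = h + (r - h) by omega, Finset.sum_range_add]
    simp
  have h4 : ∑ i ∈ Finset.range (r - h), (q + 1 + i)
      = (r - h) * (q + 1 - h) + ∑ i ∈ Finset.range (r - h), (h + i) := by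
    have h5 : ∑ i ∈ Finset.range (r - h), (q + 1 + i)
        = (r - h) * (q + 1) + ∑ i ∈ Finset.range (r - h), i := by
      rw [Finset.sum_add_distrib (f := fun _ => q + 1) (g := fun i => i)]
      simp only [Finset.sum_const, Finset.card_range, smul_eq_mul]
    have h6 : ∑ i ∈ Finset.range (r - h), (h + i)
        = (r - h) * h + ∑ i ∈ Finset.range (r - h), i := by
      rw [Finset.sum_add_distrib (f := fun _ => h) (g := fun i => i)]
      simp only [Finset.sum_const, Finset.card_range, smul_eq_mul]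
    have : (r - h) * (q + 1) = (r - h) * (q + 1 - h) + (r - h) * h := by
      rw [← Nat.mul_add]; congr 1; omega
    rw [h5, h6, this, Nat.add_assoc]
  rw [hsplit ι, h3]
  omega

end Pool.Sch
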