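import Pool.Agent.Work.MP_9d0e17_sch.Core1

set_option autoImplicit false

open Polynomial Matrix

namespace Pool.Sch

variable {R : Type*} [CommRing R]

lemma one_add_pow_mul (p : ℕ) [Fact p.Prime] [CharP R p] (u : R) (c : ℕ) :
    ∃ W : R[X], (1 + C u * X : R[X]) ^ (p * c) = 1 + X ^ p * W := by
  have h1 : (1 + C u * X : R[X]) ^ p = 1 + X ^ p * C (u ^ p) := by
    rw [add_pow_char, one_pow, mul_pow, C_pow, mul_comm]
  rw [pow_mul, h1]
  have h2 := sub_dvd_pow_sub_pow (1 + X ^ p * C (u ^ p)) (1 : R[X]) c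
  rw [one_pow, add_sub_cancel_left] at h2
  obtain ⟨W, hW⟩ := h2
  refine ⟨C (u ^ p) * W, ?_⟩
  rw [← mul_assoc, ← hW]
  ring

lemma coeff_vanish (p : ℕ) [Fact p.Prime] [CharP R p] {i q m : ℕ} (c : ℕ) (hiq : i ≤ q)
    (hqm : q < m) (hmp : m < p) :
    (X ^ i * (1 + X : R[X]) ^ (q - i + p * c)).coeff m = 0 := by
  obtain ⟨W, hW⟩ := one_add_pow_mul (R := R) p 1 c
  rw [C_1, one_mul] at hW
  rw [pow_add, hW]
  have e : X ^ i * ((1 + X : R[X]) ^ (q - i) * (1 + X ^ p * W))
      = X ^ i * (1 + X) ^ (q - i) + X ^ p * (X ^ i * (1 + X) ^ (q - i) * W) := by ring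
  rw [e, coeff_add, coeff_X_pow_mul' _ p, if_neg (by omega), add_zero]
  apply coeff_eq_zero_of_natDegree_lt
  refine lt_of_le_of_lt ?_ hqm
  refine natDegree_mul_le.trans ?_
  have h1 : (X ^ i : R[X]).natDegree ≤ i := natDegree_X_pow_le i
  have h2 : ((1 + X : R[X]) ^ (q - i)).natDegree ≤ q - i := by
    refine natDegree_pow_le.trans ?_
    have : (1 + X : R[X]).natDegree ≤ 1 := by
      refine (natDegree_add_le _ _).trans ?_
      simp only [natDegree_one]
      exact max_le (by omega) natDegree_X_le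
    calc (q - i) * (1 + X : R[X]).natDegree ≤ (q - i) * 1 := Nat.mul_le_mul_left _ this
      _ = q - i := mul_one _
  omega

lemma entry_eq (r N k j : ℕ) (hj : j < r) (y : R) (g : ℕ → R) :
    (X ^ j * (1 + X : R[X]) ^ (r - 1 - j) *
      ∑ i ∈ Finset.range (N + 1), C (y ^ i * g i) * (X ^ i * (1 + X) ^ (N - i))).coeff (2 * k + 1)
    = ∑ i ∈ Finset.range (N + (r - 1) + 1),
        (X ^ i * (1 + X : R[X]) ^ (N + (r - 1) - i)).coeff (2 * k + 1) *
          (if j ≤ i ∧ i - j ≤ N then y ^ (i - j) * g (i - j) else 0) := by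
  rw [Finset.mul_sum, finsetSum_coeff]
  have h1 : ∑ i ∈ Finset.range (N + (r - 1) + 1),
        (X ^ i * (1 + X : R[X]) ^ (N + (r - 1) - i)).coeff (2 * k + 1) *
          (if j ≤ i ∧ i - j ≤ N then y ^ (i - j) * g (i - j) else 0)
      = ∑ i ∈ (Finset.range (N + (r - 1) + 1)).filter (fun i => j ≤ i ∧ i - j ≤ N),
        (X ^ i * (1 + X : R[X]) ^ (N + (r - 1) - i)).coeff (2 * k + 1) *
          (y ^ (i - j) * g (i - j)) := by
    rw [Finset.sum_filter]
    refine Finset.sum_congr rfl fun i _ => ?_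
    split_ifs <;> simp
  rw [h1]
  refine Finset.sum_nbij' (fun i => i + j) (fun i => i - j) ?_ ?_ ?_ ?_ ?_
  · intro i hi
    simp only [Finset.mem_range] at hi
    simp only [Finset.mem_filter, Finset.mem_range]
    omega
  · intro i hi
    simp only [Finset.mem_filter, Finset.mem_range] at hi
    simp only [Finset.mem_range]
    omega
  · intro i hi
    simp
  · intro i hi
    simp only [Finset.mem_filter, Finset.mem_range] at hi
    omega
  · intro i hi
    simp only [Finset.mem_range] at hi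
    have e : X ^ j * (1 + X : R[X]) ^ (r - 1 - j) * (C (y ^ i * g i) * (X ^ i * (1 + X) ^ (N - i)))
        = C (y ^ i * g i) * (X ^ (i + j) * (1 + X) ^ (N + (r - 1) - (i + j))) := by
      have : N + (r - 1) - (i + j) = (r - 1 - j) + (N - i) := by omega
      rw [this, pow_add, pow_add]; ring
    rw [e, coeff_C_mul, Nat.add_sub_cancel, mul_comm]

theorem order_dvd (p : ℕ) [Fact p.Prime] [CharP R p] {y : R} {r q N c : ℕ} {H : R[X]}
    (hr : 0 < r) (hN : N + (r - 1) = q + p * c) (hq : q + 2 ≤ 2 * r) (h2r : 2 * r ≤ p)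
    (hH : Cl y N H) :
    y ^ ((r - (q + 1) / 2) * (q + 1 - (q + 1) / 2)) ∣ (Mx r H).det := by
  obtain ⟨g, hg⟩ := hH
  rw [← det_cols r H (fun j => X ^ (j : ℕ) * (1 + X) ^ (r - 1 - j))]
  · have h1 : (Matrix.of fun k j : Fin r =>
        ((fun j : Fin r => (X ^ (j : ℕ) * (1 + X) ^ (r - 1 - j) : R[X])) j * H).coeff (2 * (k : ℕ) + 1))
        = Matrix.of fun k j : Fin r => ∑ i ∈ Finset.range (N + (r - 1) + 1),
          (fun (k : Fin r) (i : ℕ) => (X ^ i * (1 + X : R[X]) ^ (N + (r - 1) - i)).coeff (2 * (k : ℕ) + 1)) k i *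
          (fun (i : ℕ) (j : Fin r) => if (j : ℕ) ≤ i ∧ i - j ≤ N then y ^ (i - j) * g (i - j) else 0) i j := by
      ext k j
      simp only [Matrix.of_apply]
      rw [hg, entry_eq r N k j j.2 y g]
    rw [h1, det_expand]
    refine Finset.dvd_sum fun ι _ => ?_
    by_cases hz : ∃ k : Fin r, (q + 1) / 2 ≤ (k : ℕ) ∧ ι k ≤ q
    · obtain ⟨k, hk, hkq⟩ := hz
      rw [Finset.prod_eq_zero (Finset.mem_univ k), zero_mul]
      · exact dvd_zero _
      · show (X ^ (ι k) * (1 + X : R[X]) ^ (N + (r - 1) - ι k)).coeff (2 * (k : ℕ) + 1) = 0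
        have e : N + (r - 1) - ι k = q - ι k + p * c := by omega
        rw [e]
        have hk2 := k.2
        exact coeff_vanish p c hkq (by omega) (by omega)
    · push Not at hz
      by_cases hinj : Function.Injective ι
      · refine dvd_mul_of_dvd_right ?_ _
        apply dvd_det_Y r N y g ι
        exact sum_bound r q ((q + 1) / 2) (by omega) (by omega) ι hinj
          (fun k hk => hz k hk)
      · refine dvd_mul_of_dvd_right ?_ _
        rw [Function.not_injective_iff] at hinj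
        obtain ⟨a, b, hab, hne⟩ := hinj
        rw [Matrix.det_zero_of_row_eq hne (by ext j; simp [hab])]
        exact dvd_zero _
  · intro j
    have hj := j.2
    refine lt_of_le_of_lt (natDegree_mul_le) ?_
    have h1 : (X ^ (j : ℕ) : R[X]).natDegree ≤ j := natDegree_X_pow_le _
    have h2 : ((1 + X : R[X]) ^ (r - 1 - (j : ℕ))).natDegree ≤ r - 1 - j := by
      refine natDegree_pow_le.trans ?_
      have : (1 + X : R[X]).natDegree ≤ 1 := by
        refine (natDegree_add_le _ _).trans ?_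
        simp only [natDegree_one]
        exact max_le (by omega) natDegree_X_le
      calc (r - 1 - (j : ℕ)) * (1 + X : R[X]).natDegree ≤ (r - 1 - j) * 1 := Nat.mul_le_mul_left _ this
        _ = r - 1 - j := mul_one _
    omega
  · intro j k hkj
    show (X ^ (j : ℕ) * (1 + X) ^ (r - 1 - (j : ℕ)) : R[X]).coeff k = 0
    rw [coeff_X_pow_mul', if_neg (by simpa using hkj)]
  · intro j
    show (X ^ (j : ℕ) * (1 + X) ^ (r - 1 - (j : ℕ)) : R[X]).coeff j = 1
    rw [coeff_X_pow_mul', if_pos le_rfl, Nat.sub_self]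
    simp [coeff_one_add_X_pow]

end Pool.Sch
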