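import Pool.Agent.Work.MP_9d0e17_sch.Core2

set_option autoImplicit false

open Polynomial Matrix

namespace Pool.Sch

variable (p : ℕ) [Fact p.Prime]

/-- `(x-a)^((p-1)/2)` -/
noncomputable def ee (a : ZMod p) : (ZMod p)[X] := (X - C a) ^ (p / 2)

/-- the sign of an integer as an element of `ZMod p` -/
def sg (n : ℤ) : ZMod p := if 0 ≤ n then 1 else -1

/-- one factor of the generating function -/
noncomputable def fac (F : ZMod p → ℤ) (a : ZMod p) : (ZMod p)[X][X] :=
  1 + C (C (sg p (F a)) * ee p a) * X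

/-- the generating function `prod (1 + s_a e_a(x) t)^|F a|` -/
noncomputable def HH (F : ZMod p → ℤ) : (ZMod p)[X][X] :=
  ∏ a, (fac p F a) ^ (F a).natAbs

/-- the charge at `b` -/
def tau (F : ZMod p → ℤ) (b : ZMod p) : ℤ := ∑ a, F a * quadraticChar (ZMod p) (b - a)

variable {p}

lemma ringChar_ne (hp : p ≠ 2) : ringChar (ZMod p) ≠ 2 := by
  rw [ZMod.ringChar_zmod_n]; exact hp

lemma eval_ee (hp : p ≠ 2) (a b : ZMod p) :
    (ee p a).eval b = ((quadraticChar (ZMod p) (b - a) : ℤ) : ZMod p) := by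
  rw [quadraticChar_eq_pow_of_char_ne_two' (ringChar_ne hp), ZMod.card]
  simp [ee]

lemma chi_cast_sq (a b : ZMod p) (hab : a ≠ b) :
    ((quadraticChar (ZMod p) (b - a) : ℤ) : ZMod p) * ((quadraticChar (ZMod p) (b - a) : ℤ) : ZMod p) = 1 := by
  have h := quadraticChar_sq_one (F := ZMod p) (a := b - a) (sub_ne_zero.mpr hab.symm)
  rw [← Int.cast_mul, ← sq, h, Int.cast_one]

lemma local_form (hp : p ≠ 2) (a b : ZMod p) (hab : a ≠ b) :
    ∃ v : (ZMod p)[X], C (((quadraticChar (ZMod p) (b - a) : ℤ) : ZMod p)) * ee p a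
      = 1 + (X - C b) * v := by
  have h : (X - C b) ∣ C (((quadraticChar (ZMod p) (b - a) : ℤ) : ZMod p)) * ee p a - 1 := by
    rw [dvd_iff_isRoot, IsRoot.def, eval_sub, eval_mul, eval_C, eval_one, eval_ee hp,
      chi_cast_sq a b hab, sub_self]
  obtain ⟨v, hv⟩ := h
  exact ⟨v, by rw [← hv]; ring⟩

lemma prod_one_mod {R ι : Type*} [CommRing R] [DecidableEq ι] (k : ℕ) (s : Finset ι) (D : ι → R[X])
    (h : ∀ a ∈ s, ∃ W : R[X], D a = 1 + X ^ k * W) :
    ∃ W : R[X], ∏ a ∈ s, D a = 1 + X ^ k * W := by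
  induction s using Finset.induction_on with
  | empty => exact ⟨0, by simp⟩
  | insert a s ha ih =>
    obtain ⟨W, hW⟩ := ih (fun x hx => h x (Finset.mem_insert_of_mem hx))
    obtain ⟨V, hV⟩ := h a (Finset.mem_insert_self _ _)
    refine ⟨V + W + X ^ k * V * W, ?_⟩
    rw [Finset.prod_insert ha, hW, hV]; ring

lemma rho_cases (F : ZMod p → ℤ) (a b : ZMod p) (hab : a ≠ b) :
    (F a * quadraticChar (ZMod p) (b - a) = ((F a).natAbs : ℤ) ∧
      sg p (F a) = ((quadraticChar (ZMod p) (b - a) : ℤ) : ZMod p)) ∨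
    (F a * quadraticChar (ZMod p) (b - a) = -((F a).natAbs : ℤ) ∧
      sg p (F a) = -((quadraticChar (ZMod p) (b - a) : ℤ) : ZMod p)) := by
  have h1 : quadraticChar (ZMod p) (b - a) = 1 ∨ quadraticChar (ZMod p) (b - a) = -1 :=
    quadraticChar_dichotomy (sub_ne_zero.mpr hab.symm)
  by_cases h0 : 0 ≤ F a
  · rcases h1 with h | h
    · left; rw [h]; simp [sg, h0, abs_of_nonneg h0]
    · right; rw [h]; simp [sg, h0, abs_of_nonneg h0]
  · have h0' : F a < 0 := not_le.mp h0
    rcases h1 with h | h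
    · right; rw [h]; simp [sg, h0, abs_of_neg h0']
    · left; rw [h]; simp [sg, h0, abs_of_neg h0']

/-- the order at `b` of the determinant with the factor at `b` removed -/
theorem ord_at (hp : p ≠ 2) (F : ZMod p → ℤ) (b : ZMod p) {r q : ℕ} (hr : 0 < r)
    (h2r : 2 * r ≤ p) (hq : (q : ℤ) = r - 1 + tau p F b) (hq2 : q + 2 ≤ 2 * r) :
    (X - C b) ^ ((r - (q + 1) / 2) * (q + 1 - (q + 1) / 2)) ∣
      (Mx r (∏ a ∈ Finset.univ.erase b, (fac p F a) ^ (F a).natAbs)).det := by
  classical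
  have hv : ∀ a : ZMod p, ∃ v : (ZMod p)[X], a ≠ b →
      C (((quadraticChar (ZMod p) (b - a) : ℤ) : ZMod p)) * ee p a = 1 + (X - C b) * v := by
    intro a
    by_cases hab : a = b
    · exact ⟨0, fun h => absurd hab h⟩
    · obtain ⟨v, hv⟩ := local_form hp a b hab
      exact ⟨v, fun _ => hv⟩
  choose v hv using hv
  set S := (Finset.univ : Finset (ZMod p)).erase b with hS
  have hne : ∀ a ∈ S, a ≠ b := fun a ha => Finset.ne_of_mem_erase ha
  set P : ZMod p → Prop := fun a => sg p (F a) = ((quadraticChar (ZMod p) (b - a) : ℤ) : ZMod p) ∧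
    F a * quadraticChar (ZMod p) (b - a) = ((F a).natAbs : ℤ) with hP
  set y : (ZMod p)[X] := X - C b with hy
  set D : ZMod p → (ZMod p)[X][X] := fun a =>
    if P a then 1 else (1 + C (1 + y * v a) * X) ^ (p * (F a).natAbs) with hD
  set mm : ZMod p → ℕ := fun a => if P a then 0 else (F a).natAbs with hmm
  set m' : ZMod p → ℕ := fun a => if P a then (F a).natAbs else (p - 1) * (F a).natAbs with hm'
  have hp1 : 1 ≤ p := (Fact.out : p.Prime).one_lt.le
  have key : ∀ a ∈ S, (fac p F a) ^ (F a).natAbs * D a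
      = (1 - C ((1 + y * v a) ^ 2) * X ^ 2) ^ mm a * ((1 + X) + C (y * v a) * X) ^ m' a := by
    intro a ha
    have hab := hne a ha
    have h1 := hv a hab
    by_cases hPa : P a
    · simp only [hD, hmm, hm', if_pos hPa, pow_zero, one_mul, mul_one]
      congr 1
      rw [fac, hPa.1, h1, C_add, C_1]; ring
    · simp only [hD, hmm, hm', if_neg hPa]
      rcases rho_cases F a b hab with h | h
      · exact absurd ⟨h.2, h.1⟩ hPa
      · have e1 : fac p F a = 1 - C (1 + y * v a) * X := by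
          rw [fac, h.2, C_neg, neg_mul, h1, C_neg]; ring
        have e2 : (1 + X : (ZMod p)[X][X]) + C (y * v a) * X = 1 + C (1 + y * v a) * X := by
          rw [C_add, C_1]; ring
        rw [e1, e2]
        have e3 : p * (F a).natAbs = (F a).natAbs + (p - 1) * (F a).natAbs := by
          obtain ⟨k, rfl⟩ : ∃ k, p = k + 1 := ⟨p - 1, by omega⟩
          rw [Nat.add_sub_cancel]; ring
        rw [e3, pow_add, ← mul_assoc, ← mul_pow]
        congr 2
        rw [C_pow]; ring
  have hDW : ∃ W : (ZMod p)[X][X], ∏ a ∈ S, D a = 1 + X ^ p * W := by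
    apply prod_one_mod
    intro a _
    by_cases hPa : P a
    · exact ⟨0, by simp [hD, hPa]⟩
    · simp only [hD, if_neg hPa]
      exact one_add_pow_mul p _ _
  obtain ⟨W, hW⟩ := hDW
  have e1 : Mx r (∏ a ∈ S, (fac p F a) ^ (F a).natAbs)
      = Mx r ((∏ a ∈ S, (fac p F a) ^ (F a).natAbs) * ∏ a ∈ S, D a) := by
    apply Mx_congr
    intro i hi
    rw [hW, mul_add, mul_one, coeff_add]
    have : (∏ a ∈ S, (fac p F a) ^ (F a).natAbs) * (X ^ p * W)
        = X ^ p * ((∏ a ∈ S, (fac p F a) ^ (F a).natAbs) * W) := by ring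
    rw [this, coeff_X_pow_mul', if_neg (by omega), add_zero]
  rw [e1, ← Finset.prod_mul_distrib, Finset.prod_congr rfl key, Finset.prod_mul_distrib,
    det_Mx_even]
  have hCl := Cl.prod y S v m'
  refine order_dvd p (c := ∑ a ∈ S, mm a) hr ?_ hq2 h2r hCl
  have hsum : ((∑ a ∈ S, m' a : ℕ) : ℤ) = tau p F b + p * (∑ a ∈ S, mm a : ℕ) := by
    have h1 : tau p F b = ∑ a ∈ S, F a * quadraticChar (ZMod p) (b - a) := by
      rw [tau, ← Finset.add_sum_erase _ _ (Finset.mem_univ b)]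
      simp [hS]
    rw [h1]
    push_cast
    rw [Finset.mul_sum, ← Finset.sum_add_distrib]
    refine Finset.sum_congr rfl fun a ha => ?_
    by_cases hPa : P a
    · simp only [hmm, hm', if_pos hPa]
      rw [hPa.2]; simp
    · simp only [hmm, hm', if_neg hPa]
      rcases rho_cases F a b (hne a ha) with h | h
      · exact absurd ⟨h.2, h.1⟩ hPa
      · rw [h.1]; push_cast [Nat.cast_sub hp1]; ring
  have : ((∑ a ∈ S, m' a + (r - 1) : ℕ) : ℤ) = ((q + p * ∑ a ∈ S, mm a : ℕ) : ℤ) := by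
    push_cast [Nat.cast_sub (show 1 ≤ r by omega)] at hsum ⊢
    rw [hsum, hq]; ring
  exact_mod_cast this

end Pool.Sch
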