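import Pool.Agent.Work.MP_9d0e17_sch.Core3

set_option autoImplicit false

open Polynomial Matrix

namespace Pool.Sch

/-! ### reduction modulo a power of `y` -/

lemma Mx_map {R S : Type*} [CommRing R] [CommRing S] (φ : R →+* S) (r : ℕ) (H : R[X]) :
    (Mx r H).map φ = Mx r (H.map φ) := by
  ext k j
  simp only [Mx, Matrix.map_apply, Matrix.of_apply, coeff_X_pow_mul', coeff_map]
  split_ifs <;> simp

lemma det_Mx_map {R S : Type*} [CommRing R] [CommRing S] (φ : R →+* S) (r : ℕ) (H : R[X]) :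
    φ (Mx r H).det = (Mx r (H.map φ)).det := by
  rw [RingHom.map_det, RingHom.mapMatrix_apply, Mx_map]

lemma dvd_det_of_map_eq {R : Type*} [CommRing R] (z : R) (r : ℕ) (H H' : R[X])
    (h : H.map (Ideal.Quotient.mk (Ideal.span {z})) = H'.map (Ideal.Quotient.mk (Ideal.span {z})))
    {w : R} (hw : w ∣ z) (hw' : w ∣ (Mx r H').det) : w ∣ (Mx r H).det := by
  have h1 : Ideal.Quotient.mk (Ideal.span {z}) ((Mx r H).det - (Mx r H').det) = 0 := by
    rw [map_sub, det_Mx_map, det_Mx_map, h, sub_self]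
  rw [Ideal.Quotient.eq_zero_iff_mem, Ideal.mem_span_singleton] at h1
  have h2 : w ∣ (Mx r H).det - (Mx r H').det := hw.trans h1
  have h3 := dvd_add h2 hw'
  rwa [sub_add_cancel] at h3

variable {p : ℕ} [Fact p.Prime]

theorem ord_at_full (hp : p ≠ 2) (F : ZMod p → ℤ) (b : ZMod p) {r q : ℕ} (hr : 0 < r)
    (h2r : 2 * r ≤ p) (hq : (q : ℤ) = r - 1 + tau p F b) (hq2 : q + 2 ≤ 2 * r) :
    (X - C b) ^ (if F b = 0 then (r - (q + 1) / 2) * (q + 1 - (q + 1) / 2) else
      min (p / 2) ((r - (q + 1) / 2) * (q + 1 - (q + 1) / 2))) ∣ (Mx r (HH p F)).det := by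
  have h := ord_at hp F b hr h2r hq hq2
  have hsplit : HH p F = (fac p F b) ^ (F b).natAbs *
      ∏ a ∈ Finset.univ.erase b, (fac p F a) ^ (F a).natAbs := by
    exact (Finset.mul_prod_erase _ (fun a => (fac p F a) ^ (F a).natAbs) (Finset.mem_univ b)).symm
  by_cases hb : F b = 0
  · rw [if_pos hb, hsplit, hb]
    simpa using h
  · rw [if_neg hb]
    refine dvd_det_of_map_eq ((X - C b) ^ (p / 2)) r (HH p F) _ ?_
      (pow_dvd_pow _ (min_le_left _ _)) ((pow_dvd_pow _ (min_le_right _ _)).trans h)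
    rw [hsplit, Polynomial.map_mul, Polynomial.map_pow]
    have h0 : (fac p F b).map (Ideal.Quotient.mk (Ideal.span {(X - C b) ^ (p / 2)})) = 1 := by
      rw [fac, Polynomial.map_add, Polynomial.map_one, Polynomial.map_mul, map_C, map_mul]
      have : Ideal.Quotient.mk (Ideal.span {(X - C b) ^ (p / 2)}) (ee p b) = 0 := by
        rw [Ideal.Quotient.eq_zero_iff_mem]
        exact Ideal.mem_span_singleton_self _
      rw [this]; simp
    rw [h0]; simp

/-! ### non-vanishing -/

lemma fact_ne_zero {n : ℕ} (h : n < p) : ((n.factorial : ℕ) : ZMod p) ≠ 0 := by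
  rw [Ne, ZMod.natCast_eq_zero_iff, (Fact.out : p.Prime).dvd_factorial]
  omega

lemma choose_identity {Q m j : ℕ} (hj : j ≤ m) (hm : m ≤ Q) :
    (Q - m).factorial * m.factorial * (Q - j).choose (m - j) = m.descFactorial j * (Q - j).factorial := by
  have h1 := Nat.choose_mul_factorial_mul_factorial (n := Q - j) (k := m - j) (by omega)
  have h2 := Nat.factorial_mul_descFactorial hj
  have h3 : Q - j - (m - j) = Q - m := by omega
  rw [h3] at h1
  calc (Q - m).factorial * m.factorial * (Q - j).choose (m - j)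
      = (Q - m).factorial * ((m - j).factorial * m.descFactorial j) * (Q - j).choose (m - j) := by
        rw [h2]
    _ = m.descFactorial j * ((Q - j).choose (m - j) * (m - j).factorial * (Q - m).factorial) := by ring
    _ = _ := by rw [h1]

lemma det_one_add_pow_ne (r T : ℕ) (hT : r ≤ T) (hTp : T + r ≤ p) :
    (Mx r ((1 + X : (ZMod p)[X]) ^ T)).det ≠ 0 := by
  rcases Nat.eq_zero_or_pos r with rfl | hr
  · simp [Matrix.det_fin_zero]
  rw [← det_cols r _ (fun j => X ^ (j : ℕ) * (1 + X) ^ (r - 1 - j))]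
  · set Q := T + (r - 1) with hQ
    have hA : (Matrix.of fun k j : Fin r =>
        ((fun j : Fin r => (X ^ (j : ℕ) * (1 + X) ^ (r - 1 - j) : (ZMod p)[X])) j * (1 + X) ^ T).coeff (2 * (k : ℕ) + 1))
        = Matrix.of fun k j : Fin r =>
          if (j : ℕ) ≤ 2 * (k : ℕ) + 1 then (((Q - j).choose (2 * (k : ℕ) + 1 - j) : ℕ) : ZMod p) else 0 := by
      ext k j
      have hj := j.2
      simp only [Matrix.of_apply]
      have e : X ^ (j : ℕ) * (1 + X : (ZMod p)[X]) ^ (r - 1 - (j : ℕ)) * (1 + X) ^ T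
          = X ^ (j : ℕ) * (1 + X) ^ (Q - j) := by
        rw [show Q - (j : ℕ) = (r - 1 - j) + T by omega, pow_add]; ring
      rw [e, coeff_X_pow_mul']
      simp only [coeff_one_add_X_pow]
    rw [hA]
    set A := Matrix.of fun k j : Fin r =>
          if (j : ℕ) ≤ 2 * (k : ℕ) + 1 then (((Q - j).choose (2 * (k : ℕ) + 1 - j) : ℕ) : ZMod p) else 0
    have hmul : Matrix.diagonal (fun k : Fin r => (((Q - (2 * (k : ℕ) + 1)).factorial * (2 * (k : ℕ) + 1).factorial : ℕ) : ZMod p)) * A
        = (Matrix.of fun k j : Fin r => (((2 * (k : ℕ) + 1).descFactorial j : ℕ) : ZMod p)) *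
          Matrix.diagonal (fun j : Fin r => (((Q - j).factorial : ℕ) : ZMod p)) := by
      ext k j
      have hk := k.2
      have hj := j.2
      rw [Matrix.diagonal_mul, Matrix.mul_diagonal]
      simp only [A, Matrix.of_apply]
      split_ifs with hjk
      · have := choose_identity hjk (show 2 * (k : ℕ) + 1 ≤ Q by omega)
        exact_mod_cast congrArg (Nat.cast (R := ZMod p)) this
      · rw [Nat.descFactorial_of_lt (by omega)]; simp
    have hdet := congrArg Matrix.det hmul
    rw [Matrix.det_mul, Matrix.det_mul, Matrix.det_diagonal, Matrix.det_diagonal] at hdet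
    intro h0
    rw [h0, mul_zero] at hdet
    have hV : (Matrix.of fun k j : Fin r => (((2 * (k : ℕ) + 1).descFactorial j : ℕ) : ZMod p)).det
        = (Matrix.vandermonde fun k : Fin r => ((2 * (k : ℕ) + 1 : ℕ) : ZMod p)).det := by
      rw [Matrix.det_eval_matrixOfPolynomials_eq_det_vandermonde
        (v := fun k : Fin r => ((2 * (k : ℕ) + 1 : ℕ) : ZMod p))
        (p := fun j : Fin r => descPochhammer (ZMod p) j)
        (fun i => by exact descPochhammer_natDegree _ _) (fun i => monic_descPochhammer _ _)]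
      congr 1
      ext k j
      simp only [Matrix.of_apply]
      rw [descPochhammer_eval_eq_descFactorial]
    rw [hV] at hdet
    have hne : (Matrix.vandermonde fun k : Fin r => ((2 * (k : ℕ) + 1 : ℕ) : ZMod p)).det ≠ 0 := by
      rw [Matrix.det_vandermonde_ne_zero_iff]
      intro k l hkl
      have hk := k.2
      have hl := l.2
      have h1 : ((2 * (k : ℕ) + 1 : ℕ) : ZMod p) = ((2 * (l : ℕ) + 1 : ℕ) : ZMod p) := hkl
      rw [ZMod.natCast_eq_natCast_iff'] at h1
      rw [Nat.mod_eq_of_lt (by omega), Nat.mod_eq_of_lt (by omega)] at h1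
      exact Fin.ext (by omega)
    have hne2 : ∏ j : Fin r, (((Q - j).factorial : ℕ) : ZMod p) ≠ 0 := by
      rw [Finset.prod_ne_zero_iff]
      intro j _
      exact fact_ne_zero (by omega)
    exact mul_ne_zero hne hne2 hdet.symm
  · intro j
    have hj := j.2
    refine lt_of_le_of_lt (natDegree_mul_le) ?_
    have h1 : (X ^ (j : ℕ) : (ZMod p)[X]).natDegree ≤ j := natDegree_X_pow_le _
    have h2 : ((1 + X : (ZMod p)[X]) ^ (r - 1 - (j : ℕ))).natDegree ≤ r - 1 - j := by
      refine natDegree_pow_le.trans ?_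
      have : (1 + X : (ZMod p)[X]).natDegree ≤ 1 := by
        refine (natDegree_add_le _ _).trans ?_
        simp only [natDegree_one]
        exact max_le (by omega) natDegree_X_le
      calc (r - 1 - (j : ℕ)) * (1 + X : (ZMod p)[X]).natDegree ≤ (r - 1 - j) * 1 := Nat.mul_le_mul_left _ this
        _ = r - 1 - j := mul_one _
    omega
  · intro j k hkj
    show (X ^ (j : ℕ) * (1 + X) ^ (r - 1 - (j : ℕ)) : (ZMod p)[X]).coeff k = 0
    rw [coeff_X_pow_mul', if_neg (by simpa using hkj)]
  · intro j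
    show (X ^ (j : ℕ) * (1 + X) ^ (r - 1 - (j : ℕ)) : (ZMod p)[X]).coeff j = 1
    rw [coeff_X_pow_mul', if_pos le_rfl, Nat.sub_self]
    simp [coeff_one_add_X_pow]

/-- value at `b` is non-zero if the charge is at least `r` -/
theorem det_ne (hp : p ≠ 2) (F : ZMod p → ℤ) (b : ZMod p) {r : ℕ} (hτ : (r : ℤ) ≤ tau p F b)
    (hτp : tau p F b + r ≤ p) : (Mx r (HH p F)).det ≠ 0 := by
  classical
  intro h0
  have h1 := congrArg (evalRingHom b) h0
  rw [det_Mx_map, map_zero] at h1
  set S := (Finset.univ : Finset (ZMod p)).erase b with hS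
  set P : ZMod p → Prop := fun a => sg p (F a) = ((quadraticChar (ZMod p) (b - a) : ℤ) : ZMod p) ∧
    F a * quadraticChar (ZMod p) (b - a) = ((F a).natAbs : ℤ) with hP
  set mm : ZMod p → ℕ := fun a => if P a then 0 else (F a).natAbs with hmm
  set m2 : ZMod p → ℕ := fun a => if P a then (F a).natAbs else 0 with hm2
  have e1 : (HH p F).map (evalRingHom b)
      = (1 + X) ^ (∑ a ∈ S, m2 a) * (1 - X) ^ (∑ a ∈ S, mm a) := by
    rw [HH, Polynomial.map_prod, ← Finset.mul_prod_erase _ _ (Finset.mem_univ b)]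
    have hb : ((fac p F b) ^ (F b).natAbs).map (evalRingHom b) = 1 := by
      have hp2 : p / 2 ≠ 0 := by
        have := (Fact.out : p.Prime).two_le
        omega
      rw [Polynomial.map_pow, fac, Polynomial.map_add, Polynomial.map_one, Polynomial.map_mul,
        map_C, map_mul]
      have : (evalRingHom b) (ee p b) = 0 := by simp [ee, hp2]
      rw [this]; simp
    rw [hb, one_mul, ← Finset.prod_pow_eq_pow_sum, ← Finset.prod_pow_eq_pow_sum,
      ← Finset.prod_mul_distrib]
    refine Finset.prod_congr rfl fun a ha => ?_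
    have hab : a ≠ b := Finset.ne_of_mem_erase ha
    have hev : (evalRingHom b) (ee p a) = ((quadraticChar (ZMod p) (b - a) : ℤ) : ZMod p) := by
      rw [coe_evalRingHom, eval_ee hp]
    rw [Polynomial.map_pow, fac, Polynomial.map_add, Polynomial.map_one, Polynomial.map_mul,
        map_C, map_mul, hev, map_X]
    have hC : (evalRingHom b) (C (sg p (F a))) = sg p (F a) := by simp
    rw [hC]
    by_cases hPa : P a
    · simp only [hmm, hm2, if_pos hPa, pow_zero, mul_one]
      rw [hPa.1, chi_cast_sq a b hab, C_1, one_mul]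
    · simp only [hmm, hm2, if_neg hPa, pow_zero, one_mul]
      rcases rho_cases F a b hab with h | h
      · exact absurd ⟨h.2, h.1⟩ hPa
      · rw [h.2, neg_mul, chi_cast_sq a b hab, C_neg, C_1, neg_one_mul, ← sub_eq_add_neg]
  have hsum : ((∑ a ∈ S, m2 a : ℕ) : ℤ) = tau p F b + (∑ a ∈ S, mm a : ℕ) := by
    have h1 : tau p F b = ∑ a ∈ S, F a * quadraticChar (ZMod p) (b - a) := by
      rw [tau, ← Finset.add_sum_erase _ _ (Finset.mem_univ b)]
      simp [hS]
    rw [h1]
    push_cast
    rw [← Finset.sum_add_distrib]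
    refine Finset.sum_congr rfl fun a ha => ?_
    by_cases hPa : P a
    · simp only [hmm, hm2, if_pos hPa]
      rw [hPa.2]; simp
    · simp only [hmm, hm2, if_neg hPa]
      rcases rho_cases F a b (Finset.ne_of_mem_erase ha) with h | h
      · exact absurd ⟨h.2, h.1⟩ hPa
      · rw [h.1]; push_cast; ring
  set M := ∑ a ∈ S, mm a with hM
  obtain ⟨T, hT⟩ : ∃ T : ℕ, (T : ℤ) = tau p F b := ⟨(tau p F b).toNat, by
    rw [Int.toNat_of_nonneg]; omega⟩
  have hT2 : ∑ a ∈ S, m2 a = T + M := by
    have : ((∑ a ∈ S, m2 a : ℕ) : ℤ) = ((T + M : ℕ) : ℤ) := by rw [hsum]; push_cast; omega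
    exact_mod_cast this
  rw [e1, hT2] at h1
  have e2 : (1 + X : (ZMod p)[X]) ^ (T + M) * (1 - X) ^ M = (1 - C 1 * X ^ 2) ^ M * (1 + X) ^ T := by
    rw [pow_add, C_1, one_mul]
    have : (1 - X ^ 2 : (ZMod p)[X]) = (1 + X) * (1 - X) := by ring
    rw [this, mul_pow]; ring
  rw [e2, det_Mx_even_pow] at h1
  exact det_one_add_pow_ne r T (by omega) (by omega) h1

end Pool.Sch
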