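import Pool.Agent.Work.MP_9d0e17_sch.Core4

set_option autoImplicit false

open Polynomial Matrix

namespace Pool.Sch

variable {p : ℕ} [Fact p.Prime]

/-! ### degree -/

/-- weighted degree bound -/
def WD (n : ℕ) (H : (ZMod p)[X][X]) : Prop := ∀ k, (H.coeff k).natDegree ≤ k * n

lemma WD.one (n : ℕ) : WD n (1 : (ZMod p)[X][X]) := by
  intro k
  rw [coeff_one]
  split_ifs <;> simp

lemma WD.mul {n : ℕ} {H H' : (ZMod p)[X][X]} (h : WD n H) (h' : WD n H') : WD n (H * H') := by
  intro k
  rw [coeff_mul]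
  refine natDegree_sum_le_of_forall_le _ _ ?_
  intro x hx
  have hx' : x.1 + x.2 = k := by simpa using hx
  calc (H.coeff x.1 * H'.coeff x.2).natDegree ≤ _ := natDegree_mul_le
    _ ≤ x.1 * n + x.2 * n := Nat.add_le_add (h _) (h' _)
    _ = k * n := by rw [← Nat.add_mul, hx']

lemma WD.pow {n : ℕ} {H : (ZMod p)[X][X]} (h : WD n H) (m : ℕ) : WD n (H ^ m) := by
  induction m with
  | zero => simpa using WD.one n
  | succ m ih => rw [pow_succ]; exact ih.mul h

lemma WD.prod {ι : Type*} [DecidableEq ι] {n : ℕ} (s : Finset ι) (H : ι → (ZMod p)[X][X])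
    (h : ∀ i ∈ s, WD n (H i)) : WD n (∏ i ∈ s, H i) := by
  induction s using Finset.induction_on with
  | empty => simpa using WD.one n
  | insert a s ha ih =>
    rw [Finset.prod_insert ha]
    exact (h a (Finset.mem_insert_self _ _)).mul (ih fun i hi => h i (Finset.mem_insert_of_mem hi))

lemma WD.fac (F : ZMod p → ℤ) (a : ZMod p) : WD (p / 2) (fac p F a) := by
  intro k
  rw [Pool.Sch.fac, coeff_add, coeff_one, coeff_C_mul, coeff_X]
  by_cases h0 : k = 0
  · subst h0; simp
  · by_cases h1 : k = 1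
    · subst h1
      simp only [one_ne_zero, if_false, if_true, zero_add, mul_one, one_mul]
      refine natDegree_mul_le.trans ?_
      rw [natDegree_C, zero_add, ee]
      refine natDegree_pow_le.trans ?_
      rw [natDegree_X_sub_C, mul_one]
    · rw [if_neg h0, if_neg (fun h => h1 h.symm)]; simp

lemma WD.HH (F : ZMod p → ℤ) : WD (p / 2) (HH p F) :=
  WD.prod _ _ fun a _ => (WD.fac F a).pow _

theorem natDegree_det_le {n : ℕ} {H : (ZMod p)[X][X]} (h : WD n H) (r : ℕ) :
    2 * (Mx r H).det.natDegree ≤ n * (r * (r + 1)) := by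
  have hsum : 2 * ∑ k : Fin r, (2 * (k : ℕ) + 1) = r * (r + 1) + 2 * ∑ k : Fin r, (k : ℕ) := by
    rw [← Finset.sum_range (fun k => 2 * k + 1), ← Finset.sum_range (fun k => k)]
    induction r with
    | zero => simp
    | succ r ih => rw [Finset.sum_range_succ, Finset.sum_range_succ, mul_add, ih]; ring
  have key : (Mx r H).det.natDegree ≤ n * (∑ k : Fin r, (2 * (k : ℕ) + 1) - ∑ k : Fin r, (k : ℕ)) := by
    rw [Matrix.det_apply']
    refine natDegree_sum_le_of_forall_le _ _ ?_
    intro σ _
    refine natDegree_mul_le.trans ?_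
    rw [natDegree_intCast, zero_add]
    by_cases hall : ∀ i : Fin r, (i : ℕ) ≤ 2 * (σ i : ℕ) + 1
    · refine (natDegree_prod_le _ _).trans ?_
      have h1 : ∀ i : Fin r, ((Mx r H) (σ i) i).natDegree ≤ (2 * (σ i : ℕ) + 1 - i) * n := by
        intro i
        simp only [Mx, Matrix.of_apply, coeff_X_pow_mul', if_pos (hall i)]
        exact h _
      refine (Finset.sum_le_sum fun i _ => h1 i).trans ?_
      rw [← Finset.sum_mul, mul_comm]
      refine Nat.mul_le_mul_left _ ?_
      have h2 : ∑ i : Fin r, (2 * (σ i : ℕ) + 1 - i) + ∑ i : Fin r, (i : ℕ)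
          = ∑ k : Fin r, (2 * (k : ℕ) + 1) := by
        rw [← Finset.sum_add_distrib, ← Equiv.sum_comp σ (fun k => 2 * (k : ℕ) + 1)]
        exact Finset.sum_congr rfl fun i _ => Nat.sub_add_cancel (hall i)
      omega
    · push Not at hall
      obtain ⟨i, hi⟩ := hall
      have h0 : (Mx r H) (σ i) i = 0 := by
        simp only [Mx, Matrix.of_apply, coeff_X_pow_mul']
        rw [if_neg (by omega)]
      have h00 : ∏ j : Fin r, (Mx r H) (σ j) j = 0 := Finset.prod_eq_zero (Finset.mem_univ i) h0
      rw [h00]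
      simp
  have h3 : 2 * (∑ k : Fin r, (2 * (k : ℕ) + 1) - ∑ k : Fin r, (k : ℕ)) = r * (r + 1) := by omega
  calc 2 * (Mx r H).det.natDegree
      ≤ 2 * (n * (∑ k : Fin r, (2 * (k : ℕ) + 1) - ∑ k : Fin r, (k : ℕ))) := Nat.mul_le_mul_left _ key
    _ = n * (2 * (∑ k : Fin r, (2 * (k : ℕ) + 1) - ∑ k : Fin r, (k : ℕ))) := by ring
    _ = _ := by rw [h3]

/-! ### counting zeros -/

theorem sum_order_le {G : (ZMod p)[X]} (hG : G ≠ 0) (w : ZMod p → ℕ)
    (h : ∀ b, (X - C b) ^ w b ∣ G) : ∑ b, w b ≤ G.natDegree := by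
  classical
  have h1 : ∏ b, (X - C b : (ZMod p)[X]) ^ w b ∣ G := by
    refine Finset.prod_dvd_of_coprime ?_ fun b _ => h b
    intro a _ b _ hab
    exact (pairwise_coprime_X_sub_C Function.injective_id hab).pow
  have h2 := natDegree_le_of_dvd h1 hG
  rw [natDegree_prod_of_monic _ _ (fun b _ => (monic_X_sub_C b).pow _)] at h2
  simpa [natDegree_pow] using h2

/-! ### second moment -/

lemma pair_sum (hp : p ≠ 2) (a a' : ZMod p) :
    ∑ b, quadraticChar (ZMod p) (b - a) * quadraticChar (ZMod p) (b - a') =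
      if a = a' then (p : ℤ) - 1 else -1 := by
  classical
  have h0 : ∀ u : ZMod p, quadraticChar (ZMod p) u * quadraticChar (ZMod p) u = if u = 0 then 0 else 1 := by
    intro u
    split_ifs with hu
    · simp [hu]
    · rw [← sq]; exact quadraticChar_sq_one hu
  by_cases h : a = a'
  · subst h
    rw [if_pos rfl, Finset.sum_congr rfl fun b _ => h0 (b - a)]
    have : ∑ b : ZMod p, (if b - a = 0 then (0 : ℤ) else 1) = ∑ b : ZMod p, (1 - if b = a then (1 : ℤ) else 0) := by
      refine Finset.sum_congr rfl fun b _ => ?_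
      by_cases hba : b = a
      · simp [hba]
      · rw [if_neg (sub_ne_zero.mpr hba), if_neg hba]; ring
    rw [this, Finset.sum_sub_distrib, Finset.sum_ite_eq']
    simp [ZMod.card]
  · rw [if_neg h]
    set d := a' - a with hd
    have hd0 : d ≠ 0 := sub_ne_zero.mpr (Ne.symm h)
    rw [← Equiv.sum_comp (Equiv.addRight a')
      (fun b => quadraticChar (ZMod p) (b - a) * quadraticChar (ZMod p) (b - a'))]
    have h1 : ∀ c : ZMod p, quadraticChar (ZMod p) ((Equiv.addRight a') c - a) *
        quadraticChar (ZMod p) ((Equiv.addRight a') c - a')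
        = quadraticChar (ZMod p) (1 + d * c⁻¹) - if c = 0 then 1 else 0 := by
      intro c
      have e1 : (Equiv.addRight a') c - a = c + d := by
        simp [hd]; ring
      have e2 : (Equiv.addRight a') c - a' = c := by simp
      rw [e1, e2]
      split_ifs with hc
      · subst hc; simp
      · have e3 : c + d = c * (1 + d * c⁻¹) := by field_simp
        rw [e3, map_mul, sub_zero, mul_right_comm, h0, if_neg hc, one_mul]
    rw [Finset.sum_congr rfl fun c _ => h1 c, Finset.sum_sub_distrib, Finset.sum_ite_eq',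
      if_pos (Finset.mem_univ _)]
    have h2 : ∑ c : ZMod p, quadraticChar (ZMod p) (1 + d * c⁻¹) = ∑ u : ZMod p, quadraticChar (ZMod p) u := by
      refine Fintype.sum_bijective (fun c : ZMod p => 1 + d * c⁻¹) ?_ _ _ (fun _ => rfl)
      refine ⟨?_, ?_⟩
      · intro c c' hcc
        simp only at hcc
        have := mul_left_cancel₀ hd0 (add_left_cancel hcc)
        exact inv_injective this
      · intro u
        refine ⟨((u - 1) / d)⁻¹, ?_⟩
        simp only [inv_inv]
        field_simp
        ring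
    rw [h2, quadraticChar_sum_zero (ringChar_ne hp)]
    ring

theorem parseval (hp : p ≠ 2) (F : ZMod p → ℤ) :
    ∑ b, tau p F b ^ 2 = p * ∑ a, F a ^ 2 - (∑ a, F a) ^ 2 := by
  have h1 : ∀ b, tau p F b ^ 2 = ∑ a, ∑ a', F a * F a' *
      (quadraticChar (ZMod p) (b - a) * quadraticChar (ZMod p) (b - a')) := by
    intro b
    rw [sq, tau, Finset.sum_mul_sum]
    refine Finset.sum_congr rfl fun a _ => Finset.sum_congr rfl fun a' _ => ?_
    ring
  rw [Finset.sum_congr rfl fun b _ => h1 b, Finset.sum_comm]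
  have h2 : ∀ a, ∑ b, ∑ a', F a * F a' *
      (quadraticChar (ZMod p) (b - a) * quadraticChar (ZMod p) (b - a'))
      = p * F a ^ 2 - F a * ∑ a', F a' := by
    intro a
    rw [Finset.sum_comm]
    have : ∀ a', ∑ b, F a * F a' *
      (quadraticChar (ZMod p) (b - a) * quadraticChar (ZMod p) (b - a'))
        = (if a = a' then (p : ℤ) * (F a * F a') else 0) - F a * F a' := by
      intro a'
      rw [← Finset.mul_sum, pair_sum hp]
      split_ifs <;> ring
    rw [Finset.sum_congr rfl fun a' _ => this a', Finset.sum_sub_distrib, Finset.sum_ite_eq,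
      if_pos (Finset.mem_univ _), ← Finset.mul_sum]
    ring
  rw [Finset.sum_congr rfl fun a _ => h2 a, Finset.sum_sub_distrib, ← Finset.mul_sum,
    ← Finset.sum_mul]
  ring

end Pool.Sch
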